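import Mathlib
import Pool.Agent.H.MP_0daf67_co.G

set_option autoImplicit false

namespace Pool.Agent.Results.MP_f3e379_co.Friend

open SimpleGraph

/-- The join: the disjoint union together with all edges between the two parts. -/
def join {α β : Type} (G : SimpleGraph α) (H : SimpleGraph β) : SimpleGraph (α ⊕ β) :=
  (G ⊕g H) ⊔ completeBipartiteGraph α β

/-- The friendship graph `F_{k,3} = K_1 ∨ k K_2`. -/
def friend (k : ℕ) : SimpleGraph (Fin 1 ⊕ Fin k × Fin 2) := join ⊤ (⊥ □ ⊤)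

/-- `S^{1,l}_{n,k} = K_l ∨ ((K_{k-l} ∨ (n-k-1) K_1) ∪ K_1)`. -/
def S (n k l : ℕ) : SimpleGraph (Fin l ⊕ (Fin (k - l) ⊕ Fin (n - k - 1)) ⊕ Fin 1) :=
  join ⊤ (join ⊤ ⊥ ⊕g ⊥)

open Classical in
/-- The largest eigenvalue of the adjacency matrix. -/
noncomputable def lam {V : Type} [Fintype V] [DecidableEq V] (G : SimpleGraph V) : ℝ :=
  sSup (spectrum ℝ (G.adjMatrix ℝ))

theorem result (k : ℕ) (hk : 2 ≤ k) : ∃ m₀ : ℕ, ∀ m ≥ m₀, ∀ l n : ℕ, 1 ≤ l → l + 1 ≤ k →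
    m + k * (k + 1) / 2 ≡ l [MOD k] → (n : ℚ) = (m - l) / k + (k + 3) / 2 →
    ∀ (V : Type) [Fintype V] [DecidableEq V] (G : SimpleGraph V), (friend k).Free G →
      G.edgeSet.ncard = m → (∀ v, ∃ w, G.Adj v w) →
      lam G ≤ lam (S n k l) ∧ (lam G = lam (S n k l) ↔ Nonempty (G ≃g S n k l)) := by
  obtain ⟨m₀, h⟩ := Pool.Agent.H.MP_0daf67_co.final k hk
  exact ⟨m₀, fun m hm l n h1 h2 _ hn V _ _ G hF =>
    h m hm l n h1 h2 hn V G (Pool.Agent.H.MP_0daf67_co.np_of_fr hF)⟩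

end Pool.Agent.Results.MP_f3e379_co.Friend
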